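import Pool.Agent.W426.SM.Stm

/-!
# Task ZM of the project SM: the zeta function as a sum over the valuations
-/

set_option autoImplicit false

namespace Pool.Agent.W880.SM

open MeasureTheory Pool.Agent.W426.SM

variable {n k : ℕ} (p : ℕ) [hp : Fact p.Prime]

theorem pval_spoly (A : Fin n → ℕ) (m : Fin k → Fin n → ℕ) (c : Fin k → ℚ) (e : ℕ)
    (x : Fin n → PadicInt p) :
    pval p (spoly A m c e) x = (∏ i, ‖x i‖ ^ A i) * ‖gp p m c 0 x‖ ^ e := by
  unfold pval spoly gp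
  simp only [MvPolynomial.eval₂_mul, MvPolynomial.eval₂_pow, MvPolynomial.eval₂_prod,
    MvPolynomial.eval₂_sum, MvPolynomial.eval₂_X, MvPolynomial.eval₂_C]
  rw [norm_mul, norm_pow, norm_prod]
  simp

theorem null_coord [MeasurableSpace (Fin n → PadicInt p)] [BorelSpace (Fin n → PadicInt p)]
    (i : Fin n) : (Measure.addHaar : Measure (Fin n → PadicInt p)) {x | x i = 0} = 0 := by
  set μ : Measure (Fin n → PadicInt p) := Measure.addHaar with hμ
  set Z : ℕ → Set (Fin n → PadicInt p) := fun j => {x | x i = (j : PadicInt p)} with hZ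
  have hmeas : ∀ j, MeasurableSet (Z j) := fun j =>
    (isClosed_eq (continuous_apply i) continuous_const).measurableSet
  have hdisj : Pairwise (Function.onFun Disjoint Z) := by
    intro a b hab
    refine Set.disjoint_left.2 fun x hx hx' => hab ?_
    have h1 : (a : PadicInt p) = b := by
      rw [← (show x i = (a : PadicInt p) from hx)]; exact hx'
    exact_mod_cast h1
  have heq : ∀ j, μ (Z j) = μ (Z 0) := by
    intro j
    have h1 : Z 0 = (fun x => (Pi.single i (j : PadicInt p) : Fin n → PadicInt p) + x) ⁻¹' (Z j) := by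
      ext x
      simp [hZ]
    rw [h1, measure_preimage_add]
  have h2 : ∑' j, μ (Z j) ≤ μ Set.univ :=
    tsum_measure_le_measure_univ (fun j => (hmeas j).nullMeasurableSet)
      (fun a b hab => (hdisj hab).aedisjoint)
  have h0 : ({x | x i = 0} : Set (Fin n → PadicInt p)) = Z 0 := by
    simp [hZ]
  rw [h0]
  by_contra h
  have h3 : ∑' j : ℕ, μ (Z j) = ⊤ := by
    simp_rw [heq]
    exact ENNReal.tsum_const_eq_top_of_ne_zero h
  rw [h3] at h2
  have h4 : μ Set.univ < ⊤ := isCompact_univ.measure_lt_top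
  exact absurd (lt_of_le_of_lt h2 h4) (lt_irrefl _)

omit hp in
theorem prodz (u a : Fin n → ℕ) :
    ∏ i, ((p : ℝ) ^ (-(u i : ℤ))) ^ a i = (p : ℝ) ^ (-((∑ i, u i * a i : ℕ) : ℤ)) := by
  have h : ∀ N : ℕ, (p : ℝ) ^ (-(N : ℤ)) = ((p : ℝ)⁻¹) ^ N := by
    intro N
    rw [zpow_neg, zpow_natCast, inv_pow]
  simp_rw [h, ← pow_mul]
  rw [Finset.prod_pow_eq_pow_sum]

theorem gp_continuous (m : Fin k → Fin n → ℕ) (c : Fin k → ℚ) :
    Continuous (fun x : Fin n → PadicInt p => gp p m c 0 x) := by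
  unfold gp
  have h1 : ∀ i : Fin n, Continuous (fun x : Fin n → PadicInt p => ((x i : PadicInt p) : Padic p)) :=
    fun i => continuous_subtype_val.comp (continuous_apply i)
  have h2 : ∀ j : Fin k, Continuous (fun x : Fin n → PadicInt p =>
      ∏ i, ((x i : PadicInt p) : Padic p) ^ m j i) := fun j =>
    continuous_finsetProd _ fun i _ => (h1 i).pow _
  exact continuous_finsetSum _ fun j _ => Continuous.mul continuous_const (h2 j)

theorem gord_le (m : Fin k → Fin n → ℕ) (u : Fin n → ℕ) (j : Fin k) :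
    gord m u ≤ ∑ i, u i * m j i :=
  ciInf_le (OrderBot.bddBelow _) j

theorem gp_le (m : Fin k → Fin n → ℕ) (c : Fin k → ℚ) (hc : ∀ j, ‖(c j : Padic p)‖ ≤ 1)
    (u : Fin n → ℕ) (x : Fin n → PadicInt p) (hx : ∀ i, ‖x i‖ = (p : ℝ) ^ (-(u i : ℤ))) :
    ‖gp p m c 0 x‖ ≤ (p : ℝ) ^ (-(gord m u : ℤ)) := by
  have hp1 : (1 : ℝ) ≤ p := by exact_mod_cast hp.out.one_lt.le
  have hp0 : (0 : ℝ) < p := by linarith
  unfold gp
  refine IsUltrametricDist.norm_sum_le_of_forall_le_of_nonneg (zpow_nonneg hp0.le _) fun j _ => ?_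
  rw [norm_mul, norm_mul, Pi.zero_apply, pow_zero, norm_one, mul_one, norm_prod]
  have h1 : ∏ i, ‖((x i : PadicInt p) : Padic p) ^ m j i‖ =
      (p : ℝ) ^ (-((∑ i, u i * m j i : ℕ) : ℤ)) := by
    rw [← prodz]
    refine Finset.prod_congr rfl fun i _ => ?_
    rw [norm_pow, ← PadicInt.norm_def, hx i]
  rw [h1]
  calc ‖(c j : Padic p)‖ * (p : ℝ) ^ (-((∑ i, u i * m j i : ℕ) : ℤ))
      ≤ 1 * (p : ℝ) ^ (-(gord m u : ℤ)) := by
        apply mul_le_mul (hc j) _ (zpow_nonneg hp0.le _) zero_le_one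
        apply zpow_le_zpow_right₀ hp1
        have := gord_le m u j
        omega
    _ = _ := one_mul _

/-- the pieces -/
def W (m : Fin k → Fin n → ℕ) (c : Fin k → ℚ) (v : (Fin n → ℕ) × ℕ) : Set (Fin n → PadicInt p) :=
  {x | (∀ i, ‖x i‖ = (p : ℝ) ^ (-(v.1 i : ℤ))) ∧
    ‖gp p m c 0 x‖ = (p : ℝ) ^ (-((gord m v.1 : ℤ) + v.2))}

theorem W_closed (m : Fin k → Fin n → ℕ) (c : Fin k → ℚ) (v : (Fin n → ℕ) × ℕ) :
    IsClosed (W p m c v) := by
  have h : W p m c v = (⋂ i, {x : Fin n → PadicInt p | ‖x i‖ = (p : ℝ) ^ (-(v.1 i : ℤ))}) ∩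
      {x | ‖gp p m c 0 x‖ = (p : ℝ) ^ (-((gord m v.1 : ℤ) + v.2))} := by
    ext x
    simp [W]
  rw [h]
  apply IsClosed.inter
  · exact isClosed_iInter fun i =>
      isClosed_eq ((continuous_apply i).norm) continuous_const
  · exact isClosed_eq (gp_continuous p m c).norm continuous_const

theorem zpow_inj' {a b : ℤ} (h : (p : ℝ) ^ a = (p : ℝ) ^ b) : a = b := by
  have hp1 : (1 : ℝ) < p := by exact_mod_cast hp.out.one_lt
  exact zpow_right_injective₀ (by linarith) hp1.ne' h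

theorem W_disj (m : Fin k → Fin n → ℕ) (c : Fin k → ℚ) :
    Pairwise (Function.onFun Disjoint (W p m c)) := by
  intro v w hvw
  refine Set.disjoint_left.2 fun x hx hx' => hvw ?_
  have h1 : v.1 = w.1 := by
    funext i
    have := zpow_inj' p ((hx.1 i).symm.trans (hx'.1 i))
    omega
  have h2 : v.2 = w.2 := by
    have := zpow_inj' p (hx.2.symm.trans hx'.2)
    rw [h1] at this
    omega
  exact Prod.ext h1 h2

theorem mem_iUnion_W (m : Fin k → Fin n → ℕ) (c : Fin k → ℚ)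
    (hc : ∀ j, ‖(c j : Padic p)‖ ≤ 1) (x : Fin n → PadicInt p) (hx : ∀ i, x i ≠ 0)
    (hg : gp p m c 0 x ≠ 0) : x ∈ ⋃ v, W p m c v := by
  have hp1 : (1 : ℝ) < p := by exact_mod_cast hp.out.one_lt
  have h1 : ∀ i, ‖x i‖ = (p : ℝ) ^ (-((x i).valuation : ℤ)) := fun i =>
    PadicInt.norm_eq_zpow_neg_valuation (hx i)
  have h2 := gp_le p m c hc (fun i => (x i).valuation) x h1
  rw [Padic.norm_eq_zpow_neg_valuation hg] at h2
  have h3 := (zpow_le_zpow_iff_right₀ hp1).1 h2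
  obtain ⟨l, hl⟩ := Int.eq_ofNat_of_zero_le
    (show (0 : ℤ) ≤ (gp p m c 0 x).valuation - gord m (fun i => (x i).valuation) by linarith)
  rw [Set.mem_iUnion]
  refine ⟨(fun i => (x i).valuation, l), h1, ?_⟩
  rw [Padic.norm_eq_zpow_neg_valuation hg]
  congr 1
  simp only
  linarith

/-- the value on a piece -/
theorem pval_W (A : Fin n → ℕ) (m : Fin k → Fin n → ℕ) (c : Fin k → ℚ) (e : ℕ)
    (v : (Fin n → ℕ) × ℕ) (x : Fin n → PadicInt p) (hx : x ∈ W p m c v) :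
    pval p (spoly A m c e) x = (p : ℝ) ^ (-((ford A m e v.1 + e * v.2 : ℕ) : ℤ)) := by
  have hp0 : (p : ℝ) ≠ 0 := by exact_mod_cast hp.out.ne_zero
  rw [pval_spoly, hx.2]
  have h1 : ∏ i, ‖x i‖ ^ A i = (p : ℝ) ^ (-((∑ i, v.1 i * A i : ℕ) : ℤ)) := by
    rw [← prodz]
    refine Finset.prod_congr rfl fun i _ => ?_
    rw [hx.1 i]
  rw [h1, ← zpow_natCast, ← zpow_mul, ← zpow_add₀ hp0]
  congr 1
  unfold ford
  push_cast
  ring

theorem pval_nonneg (f : MvPolynomial (Fin n) ℚ) (x : Fin n → PadicInt p) : 0 ≤ pval p f x :=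
  norm_nonneg _

theorem pval_le_one (A : Fin n → ℕ) (m : Fin k → Fin n → ℕ) (c : Fin k → ℚ) (e : ℕ)
    (hc : ∀ j, ‖(c j : Padic p)‖ ≤ 1) (x : Fin n → PadicInt p) :
    pval p (spoly A m c e) x ≤ 1 := by
  rw [pval_spoly]
  have h1 : ‖gp p m c 0 x‖ ≤ 1 := by
    unfold gp
    refine IsUltrametricDist.norm_sum_le_of_forall_le_of_nonneg zero_le_one fun j _ => ?_
    rw [norm_mul, norm_mul, Pi.zero_apply, pow_zero, norm_one, mul_one, norm_prod]
    have h2 : ∏ i, ‖((x i : PadicInt p) : Padic p) ^ m j i‖ ≤ 1 := by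
      refine Finset.prod_le_one (fun i _ => norm_nonneg _) fun i _ => ?_
      rw [norm_pow]
      exact pow_le_one₀ (norm_nonneg _) (PadicInt.norm_le_one _)
    exact mul_le_one₀ (hc j) (Finset.prod_nonneg fun i _ => norm_nonneg _) h2
  have h2 : ∏ i, ‖x i‖ ^ A i ≤ 1 :=
    Finset.prod_le_one (fun i _ => pow_nonneg (norm_nonneg _) _)
      fun i _ => pow_le_one₀ (norm_nonneg _) (PadicInt.norm_le_one _)
  exact mul_le_one₀ h2 (pow_nonneg (norm_nonneg _) _) (pow_le_one₀ (norm_nonneg _) h1)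

theorem pval_continuous (A : Fin n → ℕ) (m : Fin k → Fin n → ℕ) (c : Fin k → ℚ) (e : ℕ) :
    Continuous (fun x : Fin n → PadicInt p => pval p (spoly A m c e) x) := by
  simp_rw [pval_spoly]
  refine Continuous.mul ?_ ((gp_continuous p m c).norm.pow _)
  exact continuous_finsetProd _ fun i _ => ((continuous_apply i).norm).pow _

/-- powers of `p` -/
theorem cpow_zpow (N : ℕ) (s : ℂ) :
    ((((p : ℝ) ^ (-(N : ℤ)) : ℝ)) : ℂ) ^ s = (p : ℂ) ^ (-(s * N)) := by
  have hp0 : (0 : ℝ) < p := by exact_mod_cast hp.out.pos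
  have h1 : (p : ℝ) ^ (-(N : ℤ)) = Real.exp (-(N * Real.log p)) := by
    rw [← Real.rpow_intCast, Real.rpow_def_of_pos hp0]
    congr 1
    push_cast; ring
  have hpc : (p : ℂ) ≠ 0 := by exact_mod_cast hp.out.ne_zero
  have h2 : ((Real.exp (-(N * Real.log p)) : ℝ) : ℂ) ≠ 0 := by
    exact_mod_cast (Real.exp_pos _).ne'
  rw [h1, Complex.cpow_def_of_ne_zero h2, Complex.cpow_def_of_ne_zero hpc,
    ← Complex.ofReal_log (Real.exp_pos _).le, Real.log_exp, ← Complex.natCast_log]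
  congr 1
  push_cast
  ring

/-- the geometric sum over `l` -/
theorem sum_l (V c₀ c₁ : ℝ) (a N e : ℕ) (s : ℂ) (hs : 0 < s.re) (t : ℕ → ℝ)
    (h0 : t 0 = V * (p : ℝ) ^ (-(a : ℤ)) * c₀)
    (h1 : ∀ l : ℕ, t (l + 1) = V * (p : ℝ) ^ (-(a : ℤ)) * c₁ * (p : ℝ) ^ (-(l : ℤ))) :
    HasSum (fun l : ℕ => (t l : ℂ) * (p : ℂ) ^ (-(s * ((N + e * l : ℕ) : ℂ))))
      (V * (((p : ℂ) ^ (-((a : ℂ) + s * N))) *
        ((c₀ : ℂ) + (c₁ : ℂ) * ((p : ℂ) ^ (-(e * s)) / (1 - (p : ℂ) ^ (-(1 + e * s))))))) := by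
  have hp1 : (1 : ℝ) < p := by exact_mod_cast hp.out.one_lt
  have hpc : (p : ℂ) ≠ 0 := by exact_mod_cast hp.out.ne_zero
  set ξ : ℂ := (p : ℂ) ^ (-(1 + e * s)) with hξ
  have hξ1 : ‖ξ‖ < 1 := by
    rw [hξ, Complex.norm_natCast_cpow_of_pos hp.out.pos]
    apply Real.rpow_lt_one_of_one_lt_of_neg hp1
    have : 0 ≤ (e : ℝ) * s.re := by positivity
    simp
    linarith
  have hz : ∀ b : ℕ, (((p : ℝ) ^ (-(b : ℤ)) : ℝ) : ℂ) = (p : ℂ) ^ (-(b : ℂ)) := by
    intro b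
    rw [Complex.cpow_neg, Complex.cpow_natCast]
    push_cast
    rw [zpow_neg, zpow_natCast]
  have hgeo := (hasSum_geometric_of_norm_lt_one hξ1).mul_left
    ((V : ℂ) * (p : ℂ) ^ (-((a : ℂ) + s * N)) * c₁ * (p : ℂ) ^ (-(e * s)))
  have hterm : ∀ l : ℕ, (t (l + 1) : ℂ) * (p : ℂ) ^ (-(s * ((N + e * (l + 1) : ℕ) : ℂ))) =
      (V : ℂ) * (p : ℂ) ^ (-((a : ℂ) + s * N)) * c₁ * (p : ℂ) ^ (-(e * s)) * ξ ^ l := by
    intro l
    rw [h1, hξ, ← Complex.cpow_nat_mul]
    push_cast [hz]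
    rw [show ∀ x y z w v : ℂ, x * y * z * w * v = x * z * (y * w * v) by intros; ring,
      ← Complex.cpow_add _ _ hpc, ← Complex.cpow_add _ _ hpc,
      show ∀ x y z w v : ℂ, x * y * z * w * v = x * z * (y * w * v) by intros; ring,
      ← Complex.cpow_add _ _ hpc, ← Complex.cpow_add _ _ hpc]
    congr 2
    ring
  have hsum : HasSum (fun l : ℕ => (t (l + 1) : ℂ) * (p : ℂ) ^ (-(s * ((N + e * (l + 1) : ℕ) : ℂ))))
      ((V : ℂ) * (p : ℂ) ^ (-((a : ℂ) + s * N)) * c₁ * (p : ℂ) ^ (-(e * s)) * (1 - ξ)⁻¹) := by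
    simp_rw [hterm]
    exact hgeo
  have hfull := HasSum.zero_add
    (f := fun l : ℕ => (t l : ℂ) * (p : ℂ) ^ (-(s * ((N + e * l : ℕ) : ℂ)))) hsum
  have heq : (t 0 : ℂ) * (p : ℂ) ^ (-(s * ((N + e * 0 : ℕ) : ℂ))) +
      (V : ℂ) * (p : ℂ) ^ (-((a : ℂ) + s * N)) * c₁ * (p : ℂ) ^ (-(e * s)) * (1 - ξ)⁻¹ =
      V * (((p : ℂ) ^ (-((a : ℂ) + s * N))) *
        ((c₀ : ℂ) + (c₁ : ℂ) * ((p : ℂ) ^ (-(e * s)) / (1 - ξ)))) := by
    have h2 : (t 0 : ℂ) * (p : ℂ) ^ (-(s * ((N + e * 0 : ℕ) : ℂ))) =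
        V * (p : ℂ) ^ (-((a : ℂ) + s * N)) * c₀ := by
      rw [h0]
      push_cast [hz]
      rw [show ∀ x y z w : ℂ, x * y * z * w = x * (y * w) * z by intros; ring,
        ← Complex.cpow_add _ _ hpc]
      congr 3
      ring
    rw [h2]
    ring
  rw [heq] at hfull
  exact hfull

theorem main (h : S_ZMA) : S_ZM := by
  intro n k A m c e hm hc hk he
  obtain ⟨S, hS⟩ := h m c hm hc hk
  refine ⟨S ∪ Finset.univ.biUnion (fun j => (c j).den.primeFactors), ?_⟩
  intro p hp hpS _ _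
  obtain ⟨C₀, C₁, hC⟩ := hS p (fun h => hpS (Finset.mem_union_left _ h))
  have hcp : ∀ j, ‖(c j : Padic p)‖ ≤ 1 := by
    intro j
    apply Padic.norm_rat_le_one
    intro hd
    apply hpS
    apply Finset.mem_union_right
    exact Finset.mem_biUnion.2 ⟨j, Finset.mem_univ _,
      Nat.mem_primeFactors.2 ⟨hp.out, hd, (c j).den_ne_zero⟩⟩
  set μ : Measure (Fin n → PadicInt p) := Measure.addHaar with hμ
  have hfin : μ Set.univ < ⊤ := isCompact_univ.measure_lt_top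
  have hVpos : 0 < (μ Set.univ).toReal :=
    ENNReal.toReal_pos (isOpen_univ.measure_ne_zero μ Set.univ_nonempty) hfin.ne
  refine ⟨(μ Set.univ).toReal, C₀, C₁, hVpos, ?_⟩
  intro s hs
  have hs0 : s ≠ 0 := by
    rintro rfl
    simp at hs
  have hfm : IsFiniteMeasure μ := ⟨hfin⟩
  set F : (Fin n → PadicInt p) → ℂ := fun x => ((pval p (spoly A m c e) x : ℝ) : ℂ) ^ s with hF
  have hFm : Measurable F :=
    (Complex.measurable_ofReal.comp (pval_continuous p A m c e).measurable).pow_const s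
  have hFb : ∀ x, ‖F x‖ ≤ 1 := by
    intro x
    rw [hF]
    simp only
    rw [Complex.norm_cpow_eq_rpow_re_of_nonneg (pval_nonneg p _ x) hs.ne']
    exact Real.rpow_le_one (pval_nonneg p _ x) (pval_le_one p A m c e hcp x) hs.le
  have hFi : Integrable F μ :=
    Integrable.of_bound hFm.aestronglyMeasurable 1 (Filter.Eventually.of_forall hFb)
  have h1 : ∫ x in ⋃ v, W p m c v, F x ∂μ = ∫ x, F x ∂μ := by
    apply setIntegral_eq_integral_of_ae_compl_eq_zero
    have hnull : ∀ᵐ x ∂μ, ∀ i, x i ≠ 0 := by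
      rw [ae_all_iff]
      intro i
      rw [ae_iff]
      simpa using null_coord p i
    filter_upwards [hnull] with x hx hxU
    have hg : gp p m c 0 x = 0 := by
      by_contra hg
      exact hxU (mem_iUnion_W p m c hcp x hx hg)
    rw [hF]
    simp only
    rw [pval_spoly, hg, norm_zero, zero_pow he.ne', mul_zero, Complex.ofReal_zero,
      Complex.zero_cpow hs0]
  have h2 : HasSum (fun v => ∫ x in W p m c v, F x ∂μ) (∫ x in ⋃ v, W p m c v, F x ∂μ) :=
    hasSum_integral_iUnion (fun v => (W_closed p m c v).measurableSet) (W_disj p m c)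
      hFi.integrableOn
  have h3 : ∀ v, ∫ x in W p m c v, F x ∂μ =
      ((μ (W p m c v)).toReal : ℂ) * (p : ℂ) ^ (-(s * ((ford A m e v.1 + e * v.2 : ℕ) : ℂ))) := by
    intro v
    have h4 : ∫ x in W p m c v, F x ∂μ =
        ∫ x in W p m c v, (p : ℂ) ^ (-(s * ((ford A m e v.1 + e * v.2 : ℕ) : ℂ))) ∂μ := by
      apply setIntegral_congr_fun (W_closed p m c v).measurableSet
      intro x hx
      rw [hF]
      simp only
      rw [pval_W p A m c e v x hx, cpow_zpow]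
    rw [h4, setIntegral_const]
    simp [Measure.real]
  rw [h1] at h2
  simp_rw [h3] at h2
  have h5 := h2.prod_fiberwise (g := fun u => (((μ Set.univ).toReal : ℝ) : ℂ) *
      (((p : ℂ) ^ (-(((∑ i, u i : ℕ) : ℂ) + s * ford A m e u))) *
        ((C₀ (Finset.univ.filter fun j => ∑ i, u i * m j i = gord m u) : ℂ) +
          (C₁ (Finset.univ.filter fun j => ∑ i, u i * m j i = gord m u) : ℂ) *
            ((p : ℂ) ^ (-(e * s)) / (1 - (p : ℂ) ^ (-(1 + e * s))))))) ?_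
  · rw [← h5.tsum_eq, tsum_mul_left]
  · intro u
    refine sum_l p (μ Set.univ).toReal
      (C₀ (Finset.univ.filter fun j => ∑ i, u i * m j i = gord m u))
      (C₁ (Finset.univ.filter fun j => ∑ i, u i * m j i = gord m u)) (∑ i, u i)
      (ford A m e u) e s hs (fun l => (μ (W p m c (u, l))).toReal) ?_ ?_
    · have := (hC u).1
      simp only [W, Nat.cast_zero, add_zero]
      exact this
    · intro l
      have := (hC u).2 l
      simp only [W]
      push_cast at this ⊢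
      exact this

end Pool.Agent.W880.SM
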